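import Mathlib
import Pool.Agent.N546.PN.Stm

/-!
# PN/SQO: the nonzero squares are open (helper749)
-/

set_option autoImplicit false

namespace Pool.Agent.N749.PN.Sqo

open Pool.Agent.N546.PN

/-- Part SQO over the real numbers. -/
theorem sqo_real : S_SQO ℝ := by
  intro a ha
  refine ⟨|a|, abs_pos.2 ha, fun a' h => ?_⟩
  have h1 : |a' / a - 1| < 1 := by
    have e : a' / a - 1 = (a' - a) / a := by field_simp
    rw [e, abs_div, div_lt_one (abs_pos.2 ha)]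
    exact h
  have h2 : 0 < a' / a := by
    have := (abs_lt.1 h1).1
    linarith
  refine ⟨Real.sqrt (a' / a), (Real.sqrt_pos.2 h2).ne', ?_⟩
  rw [Real.sq_sqrt h2.le]
  field_simp

/-- square roots of numbers near `1` -/
theorem root (p : ℕ) [Fact p.Prime] (v : ℤ_[p]) (hv : ‖v - 1‖ < ‖(2 : ℤ_[p])‖ ^ 2) :
    ∃ z : ℤ_[p], z ^ 2 = v := by
  let F : Polynomial ℤ_[p] := Polynomial.X ^ 2 - Polynomial.C v
  have h1 : F.aeval (1 : ℤ_[p]) = 1 - v := by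
    simp [F]
  have h2 : F.derivative.aeval (1 : ℤ_[p]) = 2 := by
    simp [F, Polynomial.derivative_X_pow]
    norm_num
  have hnorm : ‖F.aeval (1 : ℤ_[p])‖ < ‖F.derivative.aeval (1 : ℤ_[p])‖ ^ 2 := by
    rw [h1, h2, norm_sub_rev]
    exact hv
  obtain ⟨z, hz1, -, -⟩ := hensels_lemma hnorm
  refine ⟨z, ?_⟩
  have : F.aeval (z : ℤ_[p]) = (z : ℤ_[p]) ^ 2 - v := by
    simp [F]
  rw [this] at hz1
  exact sub_eq_zero.1 hz1

/-- Part SQO over the `p`-adic numbers. -/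
theorem sqo_padic (p : ℕ) [Fact p.Prime] : S_SQO ℚ_[p] := by
  intro a ha
  have h2 : (0 : ℝ) < ‖(2 : ℤ_[p])‖ := by
    rw [norm_pos_iff]
    exact two_ne_zero
  have h21 : ‖(2 : ℤ_[p])‖ ^ 2 ≤ 1 := pow_le_one₀ h2.le (PadicInt.norm_le_one _)
  refine ⟨‖a‖ * ‖(2 : ℤ_[p])‖ ^ 2, by positivity, fun a' h => ?_⟩
  have ha' : 0 < ‖a‖ := norm_pos_iff.2 ha
  have h1 : ‖a' / a - 1‖ < ‖(2 : ℤ_[p])‖ ^ 2 := by
    have e : a' / a - 1 = (a' - a) / a := by field_simp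
    rw [e, norm_div, div_lt_iff₀ ha', mul_comm]
    exact h
  have h3 : ‖a' / a‖ ≤ 1 := by
    have e : a' / a = (a' / a - 1) + 1 := by ring
    rw [e]
    refine (IsUltrametricDist.norm_add_le_max _ _).trans (max_le (h1.le.trans h21) ?_)
    rw [norm_one]
  obtain ⟨v, hv⟩ : ∃ v : ℤ_[p], (v : ℚ_[p]) = a' / a := ⟨⟨a' / a, h3⟩, rfl⟩
  obtain ⟨z, hz⟩ := root p v (by
    rw [PadicInt.norm_def, PadicInt.coe_sub, PadicInt.coe_one, hv]
    exact h1)
  have hz' : (z : ℚ_[p]) ^ 2 = a' / a := by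
    rw [← hv, ← hz, PadicInt.coe_pow]
  refine ⟨(z : ℚ_[p]), ?_, ?_⟩
  · intro h0
    rw [h0] at hz'
    have h4 : a' / a = 0 := by rw [← hz']; ring
    rw [h4, zero_sub, norm_neg, norm_one] at h1
    linarith
  · rw [hz']
    field_simp

end Pool.Agent.N749.PN.Sqo
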